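import Pool.Agent.TH502.FA.GeomN

/-!
# Calibrations by functions which are constant far away from the boundary circle
-/

set_option autoImplicit false

open Finset Real MeasureTheory Filter Topology Set

namespace Pool.Agent.Q183.FAR

open Pool.Agent.H115R3.Filling Pool.Agent.W664.Fill

/-- A compact piece, cut into finitely many parametrised squares, of an oriented Riemannian surface
`M` whose boundary contains a circle, parametrised by the circle `AddCircle (2π)` of length `2π`.
The sides of the squares are interior edges, edges of the circle, or outer edges, all of whose points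
have distance at least `π / 2` from the circle. (`dist` is the path metric of `M`, or any metric that
is at most the path metric.) If `M` is compact and its boundary is the circle, there are no outer
edges and the squares cover `M`; if `M` is complete, a compact piece of `M` which contains all points
at distance at most `π / 2` from the circle in its interior is of this form. -/
structure Piece (M : Type) [MetricSpace M] where
  /-- number of faces -/
  faces : ℕ
  /-- parametrisation of the `i`-th closed face by the unit square -/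
  chart : Fin faces → ℝ × ℝ → M
  /-- the Riemannian metric of the `i`-th face, in its parametrisation -/
  metric : Fin faces → RiemMetric
  /-- the distance in `M` is at most the Riemannian length of straight segments in the charts -/
  dist_le : ∀ i, ∀ p ∈ Sq, ∀ q ∈ Sq,
    dist (chart i p) (chart i q) ≤ (metric i).segLength p q
  /-- the sides of the faces that are interior edges of the surface -/
  interior : Finset (Fin faces × Fin 4)
  /-- the side to which an interior side is glued -/
  pair : Fin faces × Fin 4 → Fin faces × Fin 4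
  pair_mem : ∀ s ∈ interior, pair s ∈ interior
  pair_pair : ∀ s ∈ interior, pair (pair s) = s
  pair_ne : ∀ s ∈ interior, pair s ≠ s
  /-- glued sides are traversed in opposite directions (orientability) -/
  glue : ∀ s ∈ interior, ∀ t ∈ Set.Icc (0 : ℝ) 1,
    chart (pair s).1 (side (pair s).2 t) = chart s.1 (side s.2 (1 - t))
  /-- number of edges of the circle -/
  arcs : ℕ
  /-- the side that is the `k`-th edge of the circle -/
  arcSide : Fin arcs → Fin faces × Fin 4
  arcSide_injective : Function.Injective arcSide
  /-- the outer edges -/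
  outer : Finset (Fin faces × Fin 4)
  outer_disj : ∀ s ∈ outer, s ∉ interior ∧ ∀ k, arcSide k ≠ s
  /-- the sides that are not interior are exactly the edges of the circle and the outer edges -/
  arcSide_range : ∀ s, s ∉ interior ↔ (∃ k, arcSide k = s) ∨ s ∈ outer
  /-- the partition of `[0, 2π]` given by the vertices on the circle -/
  brk : Fin (arcs + 1) → ℝ
  brk_strictMono : StrictMono brk
  brk_zero : brk 0 = 0
  brk_last : brk (Fin.last arcs) = 2 * Real.pi
  /-- parametrisation of the circle by the circle of length `2π` -/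
  boundary : AddCircle (2 * Real.pi) → M
  /-- the `k`-th edge of the circle is the arc between the `k`-th and the `(k+1)`-st vertex -/
  boundary_eq : ∀ k : Fin arcs, ∀ u ∈ Set.Icc (0 : ℝ) 1,
    chart (arcSide k).1 (side (arcSide k).2 u) =
      boundary ((brk k.castSucc + u * (brk k.succ - brk k.castSucc) : ℝ) :
        AddCircle (2 * Real.pi))
  /-- the outer edges are far away -/
  far : ∀ s ∈ outer, ∀ t ∈ Set.Icc (0 : ℝ) 1,
    Real.pi / 2 ≤ Metric.infDist (chart s.1 (side s.2 t)) (Set.range boundary)

section

variable {M : Type} [MetricSpace M] (S : Piece M)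

/-- The area of the set of all points of the piece at distance less than `π / 2` from the circle. -/
noncomputable def Piece.nearArea : ℝ :=
  ∑ i, ∫ p in {p | p ∈ Sq ∧ Metric.infDist (S.chart i p) (Set.range S.boundary) < Real.pi / 2},
    √((S.metric i).E p * (S.metric i).G p - (S.metric i).F p ^ 2)

/-- There are no shortcuts in `M` between points of the circle. -/
def Piece.NoShortcut : Prop :=
  ∀ x y : AddCircle (2 * Real.pi), dist x y ≤ dist (S.boundary x) (S.boundary y)

/-- the distance from the circle -/
noncomputable def rd (β : AddCircle (2 * π) → M) (x : M) : ℝ := Metric.infDist x (Set.range β)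

theorem rd_lip (β : AddCircle (2 * π) → M) (x y : M) : |rd β x - rd β y| ≤ dist x y := by
  have h1 := Metric.infDist_le_infDist_add_dist (s := Set.range β) (x := x) (y := y)
  have h2 := Metric.infDist_le_infDist_add_dist (s := Set.range β) (x := y) (y := x)
  rw [dist_comm y x] at h2
  unfold rd
  rw [abs_le]
  constructor <;> linarith

/-- The sum over all sides of the edge sums, for functions which are constant far away. -/
theorem sum_sides (U W : M → ℝ) (u₀ w₀ : ℝ)
    (hU : ∀ q, π / 2 ≤ rd S.boundary q → U q = u₀)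
    (hW : ∀ q, π / 2 ≤ rd S.boundary q → W q = w₀) (n : ℕ) :
    ∑ s : Fin S.faces × Fin 4, edge (fun t => U (S.chart s.1 (side s.2 t)))
        (fun t => W (S.chart s.1 (side s.2 t))) n
      = loopSum S.brk (fun t => U (S.boundary (t : AddCircle (2 * π))))
        (fun t => W (S.boundary (t : AddCircle (2 * π)))) n := by
  classical
  set e : Fin S.faces × Fin 4 → ℝ := fun s => edge (fun t => U (S.chart s.1 (side s.2 t)))
        (fun t => W (S.chart s.1 (side s.2 t))) n with he
  have hint : ∑ s ∈ S.interior, e s = 0 := by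
    apply Finset.sum_involution (fun s _ => S.pair s)
    · intro s hs
      have h1 : e (S.pair s) = -e s := by
        simp only [he]
        rw [← edge_reverse]
        apply edge_congr
        · intro t ht
          rw [S.glue s hs t ht]
        · intro t ht
          rw [S.glue s hs t ht]
      rw [h1]; ring
    · intro s hs _
      exact S.pair_ne s hs
    · intro s hs
      exact S.pair_mem s hs
    · intro s hs
      exact S.pair_pair s hs
  have hout : ∑ s ∈ S.outer, e s = 0 := by
    apply Finset.sum_eq_zero
    intro s hs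
    have h1 : e s = edge (fun _ => u₀) (fun _ => w₀) n := by
      simp only [he]
      apply edge_congr
      · intro t ht
        exact hU _ (S.far s hs t ht)
      · intro t ht
        exact hW _ (S.far s hs t ht)
    rw [h1]
    unfold edge
    simp
  have hbdry : ∑ s ∈ S.interiorᶜ \ S.outer, e s = ∑ k : Fin S.arcs, e (S.arcSide k) := by
    symm
    apply Finset.sum_bij (fun k _ => S.arcSide k)
    · intro k _
      rw [Finset.mem_sdiff, Finset.mem_compl]
      refine ⟨(S.arcSide_range _).mpr (Or.inl ⟨k, rfl⟩), fun h => ?_⟩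
      exact (S.outer_disj _ h).2 k rfl
    · intro k _ l _ h
      exact S.arcSide_injective h
    · intro s hs
      rw [Finset.mem_sdiff, Finset.mem_compl] at hs
      rcases (S.arcSide_range s).mp hs.1 with ⟨k, hk⟩ | h
      · exact ⟨k, Finset.mem_univ _, hk⟩
      · exact absurd h hs.2
    · intro k _
      rfl
  have hsub : S.outer ⊆ S.interiorᶜ := by
    intro s hs
    rw [Finset.mem_compl]
    exact (S.outer_disj s hs).1
  have hsplit : ∑ s : Fin S.faces × Fin 4, e s
      = ∑ s ∈ S.interior, e s + ∑ s ∈ S.interiorᶜ, e s :=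
    (Finset.sum_add_sum_compl S.interior e).symm
  have hsplit2 : ∑ s ∈ S.interiorᶜ, e s = ∑ s ∈ S.interiorᶜ \ S.outer, e s + ∑ s ∈ S.outer, e s :=
    (Finset.sum_sdiff hsub).symm
  rw [hsplit, hint, zero_add, hsplit2, hout, add_zero, hbdry]
  unfold loopSum
  apply Finset.sum_congr rfl
  intro k _
  simp only [he]
  apply edge_congr
  · intro t ht
    rw [S.boundary_eq k t ht]
    rfl
  · intro t ht
    rw [S.boundary_eq k t ht]
    rfl

/-- The discretised integral converges to a number that is at most the integral of a bound. -/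
theorem square_limit_w (g : RiemMetric) {ι : Type} (P : Finset ι) (c : ι → ℝ)
    (u w : ι → ℝ × ℝ → ℝ) (hu : ∀ i, SegLip g (u i)) (hw : ∀ i, SegLip g (w i))
    (b : ℝ × ℝ → ℝ) (hb : IntegrableOn b Sq)
    (hpt : ∀ᵐ x ∂(volume.restrict Sqo), ∑ i ∈ P, c i * jac (u i) (w i) x ≤ b x) :
    ∃ L : ℝ, L ≤ ∫ p in Sq, b p ∧ Tendsto (fun n : ℕ => ∑ i ∈ P, c i *
      ∑ q ∈ (range n ×ˢ range n : Finset (ℕ × ℕ)), cellSum (u i) (w i) n q.1 q.2)
      atTop (𝓝 L) := by
  obtain ⟨C, hC0, hC⟩ := g.exists_bound
  have hAl : ∀ k, ∀ p ∈ Sq, ∀ q ∈ Sq, |u k q - u k p| ≤ C * ‖q - p‖ :=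
    fun k p hp q hq => (hu k).lipschitz hC hp hq
  have hBl : ∀ k, ∀ p ∈ Sq, ∀ q ∈ Sq, |w k q - w k p| ≤ C * ‖q - p‖ :=
    fun k p hp q hq => (hw k).lipschitz hC hp hq
  have hrestr : volume.restrict Sqh = volume.restrict Sqo :=
    Measure.restrict_congr_set Sqh_ae_eq_Sqo
  have hSqhm : MeasurableSet Sqh := measurableSet_Ico.prod measurableSet_Ico
  have hlim : ∀ k, ∀ᵐ x ∂(volume.restrict Sqh),
      Tendsto (fun n => Qf (u k) (w k) n x) atTop (𝓝 (jac (u k) (w k) x)) := by
    intro k
    rw [hrestr]
    filter_upwards [(hu k).ae_diff, (hw k).ae_diff,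
      self_mem_ae_restrict isOpen_Sqo.measurableSet] with x hx1 hx2 hxS
    exact tendsto_Qf hxS hx1 hx2
  have hbound : ∀ k, ∀ n : ℕ, 0 < n → ∀ᵐ x ∂(volume.restrict Sqh),
      ‖Qf (u k) (w k) n x‖ ≤ C ^ 2 := by
    intro k n hn
    filter_upwards [self_mem_ae_restrict hSqhm] with x hx
    exact Qf_bound hC0 (hAl k) (hBl k) hn hx
  have hfin : IsFiniteMeasure (volume.restrict Sqh) := by
    rw [Measure.restrict_congr_set Sqh_ae_eq_Sq]
    exact ⟨by rw [Measure.restrict_apply_univ]; exact isCompact_Sq.measure_lt_top⟩
  have hconst : Integrable (fun _ : ℝ × ℝ => C ^ 2) (volume.restrict Sqh) :=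
    integrable_const _
  have hint : ∀ k, Tendsto (fun n : ℕ => ∫ x in Sqh, Qf (u k) (w k) n x) atTop
      (𝓝 (∫ x in Sqh, jac (u k) (w k) x)) := by
    intro k
    refine tendsto_integral_filter_of_dominated_convergence (fun _ => C ^ 2) ?_ ?_ hconst
      (hlim k)
    · exact Eventually.of_forall fun n => (measurable_Qf _ _ n).aestronglyMeasurable
    · filter_upwards [eventually_gt_atTop 0] with n hn using hbound k n hn
  have hJmeas : ∀ k, AEStronglyMeasurable (jac (u k) (w k)) (volume.restrict Sqh) := fun k =>
    aestronglyMeasurable_of_tendsto_ae atTop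
      (fun n => (measurable_Qf (u k) (w k) n).aestronglyMeasurable) (hlim k)
  have hJint : ∀ k, Integrable (jac (u k) (w k)) (volume.restrict Sqh) := by
    intro k
    refine hconst.mono' (hJmeas k) ?_
    have hall : ∀ᵐ x ∂(volume.restrict Sqh), ∀ n : ℕ, 0 < n →
        ‖Qf (u k) (w k) n x‖ ≤ C ^ 2 := by
      rw [ae_all_iff]
      intro n
      by_cases hn : 0 < n
      · filter_upwards [hbound k n hn] with x hx _ using hx
      · exact Eventually.of_forall fun x h => absurd h hn
    filter_upwards [hlim k, hall] with x hx hx2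
    refine le_of_tendsto hx.norm ?_
    filter_upwards [eventually_gt_atTop 0] with n hn using hx2 n hn
  refine ⟨∑ k ∈ P, c k * ∫ x in Sqh, jac (u k) (w k) x, ?_, ?_⟩
  · have h1 : ∑ k ∈ P, c k * ∫ x in Sqh, jac (u k) (w k) x
        = ∫ x in Sqh, ∑ k ∈ P, c k * jac (u k) (w k) x := by
      rw [integral_finsetSum P (fun k _ => (hJint k).const_mul (c k))]
      apply Finset.sum_congr rfl
      intro k _
      rw [integral_const_mul]
    rw [h1]
    have harea : ∫ p in Sq, b p = ∫ p in Sqh, b p := by
      rw [Measure.restrict_congr_set Sqh_ae_eq_Sq]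
    rw [harea]
    apply integral_mono_ae
    · exact integrable_finsetSum P (fun k _ => (hJint k).const_mul (c k))
    · have := hb
      unfold IntegrableOn at this
      rwa [← Measure.restrict_congr_set Sqh_ae_eq_Sq] at this
    · rw [hrestr]
      exact hpt
  · have h1 : Tendsto (fun n : ℕ => ∑ k ∈ P, c k * ∫ x in Sqh, Qf (u k) (w k) n x) atTop
        (𝓝 (∑ k ∈ P, c k * ∫ x in Sqh, jac (u k) (w k) x)) :=
      tendsto_finsetSum P (fun k _ => (hint k).const_mul (c k))
    refine h1.congr' ?_
    filter_upwards [eventually_gt_atTop 0] with n hn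
    apply Finset.sum_congr rfl
    intro k _
    rw [integral_Qf _ _ hn]

theorem segLip_of (V : M → ℝ) (hV : ∀ x y, |V x - V y| ≤ dist x y) (k : Fin S.faces) :
    SegLip (S.metric k) (fun p => V (S.chart k p)) := by
  intro p hp q hq
  refine (hV _ _).trans ?_
  rw [dist_comm]
  exact S.dist_le k p hp q hq

/-- A calibration by functions which are constant far away gives a lower bound. -/
theorem cal_w {ι : Type}
    (P : Finset ι) (c : ι → ℝ) (U W : ι → M → ℝ)
    (hU : ∀ i x y, |U i x - U i y| ≤ dist x y) (hW : ∀ i x y, |W i x - W i y| ≤ dist x y)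
    (u₀ w₀ : ι → ℝ) (hU0 : ∀ i q, π / 2 ≤ rd S.boundary q → U i q = u₀ i)
    (hW0 : ∀ i q, π / 2 ≤ rd S.boundary q → W i q = w₀ i)
    (b : Fin S.faces → ℝ × ℝ → ℝ) (hb : ∀ k, IntegrableOn (b k) Sq)
    (hpt : ∀ k, ∀ᵐ x ∂(volume.restrict Sqo),
      ∑ i ∈ P, c i * jac (fun p => U i (S.chart k p)) (fun p => W i (S.chart k p)) x ≤ b k x)
    (L : ℝ) (hL : Tendsto (fun n : ℕ => ∑ i ∈ P, c i * (loopSum S.brk
      (fun t => U i (S.boundary (t : AddCircle (2 * π))))
      (fun t => W i (S.boundary (t : AddCircle (2 * π)))) n / 2)) atTop (𝓝 L)) :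
    L ≤ ∑ k, ∫ p in Sq, b k p := by
  have hlim := fun k => square_limit_w (S.metric k) P c (fun i p => U i (S.chart k p))
    (fun i p => W i (S.chart k p)) (fun i => segLip_of S _ (hU i) k)
    (fun i => segLip_of S _ (hW i) k) (b k) (hb k) (hpt k)
  choose L' hL1 hL2 using hlim
  have hsum : Tendsto (fun n : ℕ => ∑ k, ∑ i ∈ P, c i *
      ∑ q ∈ (Finset.range n ×ˢ Finset.range n : Finset (ℕ × ℕ)),
        cellSum (fun p => U i (S.chart k p)) (fun p => W i (S.chart k p)) n q.1 q.2)
      atTop (𝓝 (∑ k, L' k)) :=
    tendsto_finsetSum _ (fun k _ => hL2 k)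
  have hLle : ∑ k, L' k ≤ ∑ k, ∫ p in Sq, b k p := Finset.sum_le_sum (fun k _ => hL1 k)
  refine le_trans (le_of_eq ?_) hLle
  refine tendsto_nhds_unique (hL.congr' ?_) hsum
  filter_upwards [eventually_gt_atTop 0] with n hn
  rw [Finset.sum_comm]
  apply Finset.sum_congr rfl
  intro i _
  rw [← Finset.mul_sum]
  congr 1
  have e1 : ∀ k, ∑ q ∈ (Finset.range n ×ˢ Finset.range n : Finset (ℕ × ℕ)),
      cellSum (fun p => U i (S.chart k p)) (fun p => W i (S.chart k p)) n q.1 q.2
      = (∑ s : Fin 4, edge (fun t => U i (S.chart k (side s t)))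
          (fun t => W i (S.chart k (side s t))) n) / 2 :=
    fun k => cells_eq _ _ hn
  simp_rw [e1]
  rw [← Finset.sum_div]
  congr 1
  have e2 := sum_sides S (U i) (W i) (u₀ i) (w₀ i) (hU0 i) (hW0 i) n
  rw [← Finset.univ_product_univ, Finset.sum_product] at e2
  simp only at e2
  rw [e2]

end

end Pool.Agent.Q183.FAR
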