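import Pool.Agent.Q183.FAR.A

/-!
# Truncated antisymmetrised distance functions
-/

set_option autoImplicit false

open Finset Real MeasureTheory Filter Topology Set

namespace Pool.Agent.Q183.FAR

open Pool.Agent.H115R3.Filling Pool.Agent.W664.Fill Pool.Agent.TH502.FA

section

variable {M : Type} [MetricSpace M]

theorem rd_nonneg (β : AddCircle (2 * π) → M) (x : M) : 0 ≤ rd β x := Metric.infDist_nonneg

theorem rd_bdry (β : AddCircle (2 * π) → M) (s : AddCircle (2 * π)) : rd β (β s) = 0 :=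
  Metric.infDist_zero_of_mem ⟨s, rfl⟩

theorem rd_le_ext (β : AddCircle (2 * π) → M) (θ : AddCircle (2 * π)) (x : M) :
    rd β x ≤ ext β θ x := by
  unfold Pool.Agent.H115R3.Filling.ext
  apply le_ciInf
  intro t
  have h1 : rd β x ≤ dist x (β t) := Metric.infDist_le_dist_of_mem ⟨t, rfl⟩
  rw [dist_comm] at h1
  have h2 : 0 ≤ dist θ t := dist_nonneg
  linarith

/-- The truncated distance function. -/
noncomputable def tr (β : AddCircle (2 * π) → M) (θ : AddCircle (2 * π)) (x : M) : ℝ :=
  min (ext β θ x) (π - rd β x)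

theorem tr_lip (β : AddCircle (2 * π) → M) (θ : AddCircle (2 * π)) (x y : M) :
    |tr β θ x - tr β θ y| ≤ dist x y := by
  unfold tr
  refine (abs_min_sub_min_le_max _ _ _ _).trans (max_le (ext_lip β θ x y) ?_)
  have := rd_lip β y x
  rw [dist_comm] at this
  rw [show π - rd β x - (π - rd β y) = rd β y - rd β x by ring]
  exact this

theorem tr_theta (β : AddCircle (2 * π) → M) (θ θ' : AddCircle (2 * π)) (x : M) :
    |tr β θ x - tr β θ' x| ≤ dist θ θ' := by
  unfold tr
  refine (abs_min_sub_min_le_max _ _ _ _).trans (max_le (ext_lip_theta β θ θ' x) ?_)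
  rw [sub_self, abs_zero]
  exact dist_nonneg

theorem tr_bdry {β : AddCircle (2 * π) → M} (hβ : ∀ x y, dist x y ≤ dist (β x) (β y))
    (θ s : AddCircle (2 * π)) : tr β θ (β s) = dist θ s := by
  unfold tr
  rw [rd_bdry, ext_boundary hβ, sub_zero, min_eq_left]
  induction θ using QuotientAddGroup.induction_on with
  | H a =>
    induction s using QuotientAddGroup.induction_on with
    | H b =>
      have h := dist_eq_rho a b
      refine le_trans (le_of_eq h) (rho_le _)

theorem tr_mem (β : AddCircle (2 * π) → M) (θ : AddCircle (2 * π)) (x : M) :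
    min (rd β x) (π - rd β x) ≤ tr β θ x ∧ tr β θ x ≤ π - rd β x := by
  unfold tr
  exact ⟨min_le_min_right _ (rd_le_ext β θ x), min_le_right _ _⟩

/-- The antisymmetrised truncated distance functions. -/
noncomputable def GT (β : AddCircle (2 * π) → M) (N i : ℕ) (x : M) : ℝ :=
  (tr β (((i : ℝ) * (π / N) : ℝ) : AddCircle (2 * π)) x
    - tr β (((i : ℝ) * (π / N) + π : ℝ) : AddCircle (2 * π)) x + π) / 2

theorem GT_lip (β : AddCircle (2 * π) → M) (N i : ℕ) (x y : M) :
    |GT β N i x - GT β N i y| ≤ dist x y := by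
  have h1 := abs_le.mp (tr_lip β (((i : ℝ) * (π / N) : ℝ) : AddCircle (2 * π)) x y)
  have h2 := abs_le.mp (tr_lip β (((i : ℝ) * (π / N) + π : ℝ) : AddCircle (2 * π)) x y)
  unfold GT
  rw [abs_le]
  constructor <;> linarith

theorem GT_adj (β : AddCircle (2 * π) → M) (N i : ℕ) (x : M) :
    |GT β N (i + 1) x - GT β N i x| ≤ π / N := by
  have e1 : dist ((((i + 1 : ℕ) : ℝ) * (π / N) : ℝ) : AddCircle (2 * π))
      (((i : ℝ) * (π / N) : ℝ) : AddCircle (2 * π)) ≤ π / N := by
    rw [dist_eq_rho]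
    have := rho_sub_le (((i + 1 : ℕ) : ℝ) * (π / N) - (i : ℝ) * (π / N)) 0
    have h0 : rho 0 = 0 := by simp [rho]
    rw [h0, sub_zero, sub_zero] at this
    refine (le_abs_self _).trans (this.trans (le_of_eq ?_))
    rw [show ((i + 1 : ℕ) : ℝ) * (π / N) - (i : ℝ) * (π / N) = π / N by push_cast; ring]
    exact abs_of_nonneg (by positivity)
  have e2 : dist ((((i + 1 : ℕ) : ℝ) * (π / N) + π : ℝ) : AddCircle (2 * π))
      (((i : ℝ) * (π / N) + π : ℝ) : AddCircle (2 * π)) ≤ π / N := by
    refine le_trans (le_of_eq ?_) e1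
    rw [dist_eq_rho, dist_eq_rho]
    congr 1
    ring
  have h1 := abs_le.mp ((tr_theta β _ _ x).trans e1)
  have h2 := abs_le.mp ((tr_theta β _ _ x).trans e2)
  unfold GT
  rw [abs_le]
  constructor <;> linarith

theorem GT_anti (β : AddCircle (2 * π) → M) {N : ℕ} (hN : 0 < N) (i : ℕ) (x : M) :
    GT β N (i + N) x = π - GT β N i x := by
  have hNr : (N : ℝ) ≠ 0 := by exact_mod_cast hN.ne'
  have e1 : ((i + N : ℕ) : ℝ) * (π / N) = (i : ℝ) * (π / N) + π := by
    push_cast; field_simp
  have e2 : ((((i + N : ℕ) : ℝ) * (π / N) + π : ℝ) : AddCircle (2 * π))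
      = (((i : ℝ) * (π / N) : ℝ) : AddCircle (2 * π)) := by
    rw [e1, show (i : ℝ) * (π / N) + π + π = (i : ℝ) * (π / N) + 2 * π by ring,
      AddCircle.coe_add_period]
  unfold GT
  rw [e2, e1]
  ring

theorem GT_range (β : AddCircle (2 * π) → M) (N i : ℕ) (x : M) :
    0 ≤ GT β N i x ∧ GT β N i x ≤ π := by
  have e1 : dist (((i : ℝ) * (π / N) : ℝ) : AddCircle (2 * π))
      (((i : ℝ) * (π / N) + π : ℝ) : AddCircle (2 * π)) ≤ π := by
    rw [dist_eq_rho]
    exact rho_le _
  have h1 := abs_le.mp ((tr_theta β _ _ x).trans e1)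
  unfold GT
  constructor <;> linarith

theorem GT_bdry {β : AddCircle (2 * π) → M} (hβ : ∀ x y, dist x y ≤ dist (β x) (β y))
    (N i : ℕ) (t : ℝ) :
    GT β N i (β (t : AddCircle (2 * π))) = rho ((i : ℝ) * (π / N) - t) := by
  unfold GT
  rw [tr_bdry hβ, tr_bdry hβ, dist_eq_rho, dist_eq_rho,
    show (i : ℝ) * (π / N) + π - t = ((i : ℝ) * (π / N) - t) + π by ring, rho_add_pi]
  ring

/-- the function which controls the values far away -/
noncomputable def ee (β : AddCircle (2 * π) → M) (x : M) : ℝ := max (π / 2 - rd β x) 0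

theorem ee_lip (β : AddCircle (2 * π) → M) (x y : M) : |ee β x - ee β y| ≤ dist x y := by
  unfold ee
  refine (abs_max_sub_max_le_max _ _ _ _).trans (max_le ?_ ?_)
  · have := rd_lip β y x
    rw [dist_comm] at this
    rw [show π / 2 - rd β x - (π / 2 - rd β y) = rd β y - rd β x by ring]
    exact this
  · rw [sub_self, abs_zero]
    exact dist_nonneg

theorem GT_far (β : AddCircle (2 * π) → M) (N i : ℕ) (x : M) :
    |GT β N i x - π / 2| ≤ ee β x := by
  have h1 := tr_mem β (((i : ℝ) * (π / N) : ℝ) : AddCircle (2 * π)) x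
  have h2 := tr_mem β (((i : ℝ) * (π / N) + π : ℝ) : AddCircle (2 * π)) x
  unfold GT ee
  rcases le_total (rd β x) (π / 2) with h | h
  · rw [min_eq_left (by linarith)] at h1 h2
    rw [max_eq_left (by linarith), abs_le]
    constructor <;> linarith
  · rw [min_eq_right (by linarith)] at h1 h2
    rw [max_eq_right (by linarith), abs_le]
    constructor <;> linarith

theorem GT_eq (β : AddCircle (2 * π) → M) (N i : ℕ) (x : M) (hx : π / 2 ≤ rd β x) :
    GT β N i x = π / 2 := by
  have h := GT_far β N i x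
  unfold ee at h
  rw [max_eq_right (by linarith)] at h
  have := abs_nonpos_iff.1 h
  linarith

end

/-- A function which is controlled near `x` by a nonnegative differentiable function vanishing at
`x` has derivative zero. -/
theorem hasFDerivAt_zero_of {E : Type} [NormedAddCommGroup E] [NormedSpace ℝ E] {f e : E → ℝ}
    {x : E} (h0 : ∀ y, 0 ≤ e y) (hx : e x = 0) (hd : DifferentiableAt ℝ e x)
    (hf : ∀ y, |f y - f x| ≤ e y) : HasFDerivAt f (0 : E →L[ℝ] ℝ) x := by
  have hmin : IsLocalMin e x := Filter.Eventually.of_forall fun y => by rw [hx]; exact h0 y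
  have h1 : HasFDerivAt e (0 : E →L[ℝ] ℝ) x := by
    have h2 := hd.hasFDerivAt
    rwa [hmin.fderiv_eq_zero] at h2
  rw [hasFDerivAt_iff_isLittleO_nhds_zero] at h1 ⊢
  simp only [_root_.zero_apply, sub_zero, hx] at h1 ⊢
  refine Asymptotics.IsBigO.trans_isLittleO ?_ h1
  refine Asymptotics.IsBigO.of_bound 1 (Filter.Eventually.of_forall fun y => ?_)
  rw [one_mul, Real.norm_eq_abs, Real.norm_eq_abs, abs_of_nonneg (h0 _)]
  exact hf _

end Pool.Agent.Q183.FAR
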