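import Pool.Agent.Q183.FAR.C
import Pool.Agent.TH502.FA.N14.Area

/-!
# The bounds for pieces and for compact surfaces
-/

set_option autoImplicit false

open Finset Real MeasureTheory Filter Topology Set

namespace Pool.Agent.Q183.FAR

open Pool.Agent.H115R3.Filling Pool.Agent.W664.Fill Pool.Agent.TH502.FA

section

variable {M : Type} [MetricSpace M]

/-- The near part has area at least `1.901 π`. -/
theorem near_bound (S : Piece M) (hS : S.NoShortcut) : 1.901 * π ≤ S.nearArea := by
  have h0 := near_ge_lattice S hS Pool.Agent.TH502.FA.N14.P 14 7 (by norm_num) (by norm_num)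
    400000 (by norm_num) Pool.Agent.TH502.FA.N14.bound
  have h1 := flux_eq Pool.Agent.TH502.FA.N14.P 14 189763336 Pool.Agent.TH502.FA.N14.flux
  have h2 : (189763336 : ℝ) / (4 * 14 ^ 2 * 400000) * π ^ 2 ≤ S.nearArea := by
    refine le_trans ?_ h0
    have h3 : (189763336 : ℝ) / (4 * 14 ^ 2 * 400000) * π ^ 2
        = (π / (2 * ((14 : ℕ) : ℝ))) ^ 2 / ((400000 : ℕ) : ℝ) * ((189763336 : ℕ) : ℝ) := by
      push_cast
      ring
    rw [h3]
    exact mul_le_mul_of_nonneg_left h1 (by positivity)
  have hpi := Real.pi_gt_d6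
  have hpos := Real.pi_pos
  nlinarith

/-- The area of the set of all points of the piece at distance at least `π / 2` from the circle. -/
noncomputable def Piece.farArea (S : Piece M) : ℝ :=
  ∑ i, ∫ p in {p | p ∈ Sq ∧ π / 2 ≤ Metric.infDist (S.chart i p) (Set.range S.boundary)},
    √((S.metric i).E p * (S.metric i).G p - (S.metric i).F p ^ 2)

/-- The Riemannian area of the piece. -/
noncomputable def Piece.area (S : Piece M) : ℝ := ∑ i, (S.metric i).area

theorem area_split (S : Piece M) : S.area = S.nearArea + S.farArea := by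
  unfold Piece.area Piece.nearArea Piece.farArea
  rw [← Finset.sum_add_distrib]
  apply Finset.sum_congr rfl
  intro i _
  have h1 : MeasurableSet {p | p ∈ Sq ∧
      π / 2 ≤ Metric.infDist (S.chart i p) (Set.range S.boundary)} :=
    (far_closed S i).measurableSet
  have hI := (S.metric i).integrableOn_density
  have hsub1 : {p | p ∈ Sq ∧ Metric.infDist (S.chart i p) (Set.range S.boundary) < π / 2} ⊆ Sq :=
    fun p hp => hp.1
  have hsub2 : {p | p ∈ Sq ∧ π / 2 ≤ Metric.infDist (S.chart i p) (Set.range S.boundary)} ⊆ Sq :=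
    fun p hp => hp.1
  have hdisj : Disjoint
      {p | p ∈ Sq ∧ Metric.infDist (S.chart i p) (Set.range S.boundary) < π / 2}
      {p | p ∈ Sq ∧ π / 2 ≤ Metric.infDist (S.chart i p) (Set.range S.boundary)} := by
    rw [Set.disjoint_left]
    rintro p ⟨_, h3⟩ ⟨_, h4⟩
    exact absurd h3 (not_lt.2 h4)
  have hun : Sq = {p | p ∈ Sq ∧ Metric.infDist (S.chart i p) (Set.range S.boundary) < π / 2} ∪
      {p | p ∈ Sq ∧ π / 2 ≤ Metric.infDist (S.chart i p) (Set.range S.boundary)} := by
    ext p
    constructor
    · intro hp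
      rcases lt_or_ge (Metric.infDist (S.chart i p) (Set.range S.boundary)) (π / 2) with h | h
      · exact Or.inl ⟨hp, h⟩
      · exact Or.inr ⟨hp, h⟩
    · rintro (h | h)
      · exact h.1
      · exact h.1
  have h3 := setIntegral_union hdisj h1 (hI.mono_set hsub1) (hI.mono_set hsub2)
  rw [← hun] at h3
  exact h3

/-- The area is at least `1.901 π` plus the area of the far part. -/
theorem far_bound (S : Piece M) (hS : S.NoShortcut) : 1.901 * π + S.farArea ≤ S.area := by
  rw [area_split]
  have := near_bound S hS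
  linarith

end

end Pool.Agent.Q183.FAR
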